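import Pool.Agent.Helper95.OD.St

set_option autoImplicit false

namespace Pool.Agent.Helper13.OD

open Pool.Agent.Helper95.OD Finset
open scoped Classical

theorem Sw_Pres {m r : ℕ} (c : Cl m r) (σ : Cfg m r) : Pres (Sw c σ) c := by
  unfold Pres Sw
  rw [Function.update_self, Equiv.Perm.mul_apply, Equiv.swap_apply_left]

theorem hSA : SA := by
  intro m r B c
  have h1 : ((Av B).filter (fun σ => Sw c σ ∈ Av B)).card ≤
      ((Av B ∩ Ev {c}) ×ˢ (univ : Finset (Fin r))).card := by
    refine Finset.card_le_card_of_injOn (fun σ => (Sw c σ, σ c.1 c.2.1)) ?_ ?_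
    · intro σ hσ
      rw [Finset.mem_coe, Finset.mem_filter] at hσ
      rw [Finset.mem_coe, Finset.mem_product]
      refine ⟨?_, Finset.mem_univ _⟩
      rw [Finset.mem_inter]
      refine ⟨hσ.2, ?_⟩
      unfold Ev
      rw [Finset.mem_filter]
      refine ⟨Finset.mem_univ _, fun d hd => ?_⟩
      rw [Finset.mem_singleton] at hd
      rw [hd]
      exact Sw_Pres c σ
    · intro σ _ τ _ heq
      have h2 : Sw c σ = Sw c τ := congrArg Prod.fst heq
      have h3 : σ c.1 c.2.1 = τ c.1 c.2.1 := congrArg Prod.snd heq
      funext e
      by_cases he : e = c.1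
      · subst he
        have h4 := congrFun h2 c.1
        unfold Sw at h4
        rw [Function.update_self, Function.update_self, h3] at h4
        exact mul_left_cancel h4
      · have h4 := congrFun h2 e
        unfold Sw at h4
        rwa [Function.update_of_ne he, Function.update_of_ne he] at h4
  rw [Finset.card_product, Finset.card_univ, Fintype.card_fin, mul_comm] at h1
  exact h1

end Pool.Agent.Helper13.OD
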