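import Pool.Agent.Helper48.OD.St

/-!
# Project OD, module TWO: `2` belongs to `U`
-/

set_option autoImplicit false

namespace Pool.Agent.Helper13.OD

open Pool.Agent.Helper43.GD Pool.Agent.Helper48.OD

theorem hTWO (h1 : Pool.Agent.Helper43.GD.StP1) (h2 : Pool.Agent.Helper43.GD.StP2) (h3 : StCM)
    (h4 : StNV) : Pool.Agent.Helper48.OD.StTWO := by
  intro L A _ _ Q v hv hnt h2u hUI
  have := hv.fin
  obtain ⟨t, ht⟩ := h2u
  obtain ⟨c, hcU, hc⟩ := h4 L A Q v hv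
  obtain ⟨d, hdU, hd⟩ := hv.gd.2
  have hvU := hv.gd.1
  -- names for inverses
  set d' : L := ((d⁻¹ : Lˣ) : L) with hd'
  set u' : L := ((t⁻¹ : Lˣ) : L) with hu'
  set v' : L := ((v⁻¹ : Lˣ) : L) with hv'
  have hdd : (1 - (v : L)) * d' = 1 := by rw [← hd, hd', Units.mul_inv]
  have htt : (2 : L) * u' = 1 := by rw [← ht, hu', Units.mul_inv]
  have hvv : (v : L) * v' = 1 := by rw [hv', Units.mul_inv]
  obtain ⟨D, hD⟩ : ∃ D : Lˣ, D = c * d⁻¹ := ⟨_, rfl⟩
  have hDU : D ∈ Q.U := by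
    rw [hD]
    exact Q.U.mul_mem hcU (Q.U.inv_mem hdU)
  have hDv : (D : L) = (1 + (v : L)) * d' := by rw [hD, Units.val_mul, hc]
  have hm : (D : L) - 1 = 2 * (v : L) * d' := by
    rw [hDv]
    linear_combination hdd
  have hp : 1 + (D : L) = 2 * d' := by
    rw [hDv]
    linear_combination -hdd
  have hu1 : IsUnit (1 - (D : L)) := by
    have e : 1 - (D : L) = -((t * v * d⁻¹ : Lˣ) : L) := by
      rw [Units.val_mul, Units.val_mul, ht, ← hd']
      linear_combination -hm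
    rw [e]
    exact (Units.isUnit _).neg
  have hu2 : IsUnit (1 + (D : L)) := by
    have e : 1 + (D : L) = ((t * d⁻¹ : Lˣ) : L) := by
      rw [Units.val_mul, ht, ← hd', hp]
    rw [e]
    exact Units.isUnit _
  -- `D ∈ Ŝ(u)`, `D² ∈ Ŝ(u²)`
  have hS1 : Q.S t⁻¹ D := by
    refine h1 L A Q t⁻¹ D (v * d⁻¹) hDU (Q.U.mul_mem hvU (Q.U.inv_mem hdU)) ?_
    rw [Units.val_mul, ← hd', ← hu', hm]
    linear_combination -(v : L) * d' * htt
  have hS2 : Q.S (t⁻¹ * t⁻¹) (D ^ 2) := by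
    refine h1 L A Q (t⁻¹ * t⁻¹) (D ^ 2) (v * d⁻¹ * d⁻¹) (Q.U.pow_mem hDU 2)
      (Q.U.mul_mem (Q.U.mul_mem hvU (Q.U.inv_mem hdU)) (Q.U.inv_mem hdU)) ?_
    rw [Units.val_mul, Units.val_mul, Units.val_mul, Units.val_pow_eq_pow_val, ← hd', ← hu']
    have e : ((D : L) ^ 2 - 1) = (2 * (v : L) * d') * (2 * d') := by
      rw [← hm, ← hp]
      ring
    rw [e]
    linear_combination (-(v : L) * d' * d') * (2 * u' + 1) * htt
  -- the ring
  have hM : Mr Q t⁻¹ = ⊤ := by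
    refine (gn_iff (v : L)).1 hv.gn _ ?_
    have m1 : (D : L) ∈ Mr Q t⁻¹ := mem_Mr Q hS1
    have m2 : ((t * d⁻¹ : Lˣ) : L) ∈ Mr Q t⁻¹ := by
      have e : ((t * d⁻¹ : Lˣ) : L) = 1 + (D : L) := by
        rw [Units.val_mul, ht, ← hd', hp]
      rw [e]
      exact (Mr Q t⁻¹).add_mem (Mr Q t⁻¹).one_mem m1
    have m3 := inv_mem (Mr Q t⁻¹) _ m2
    have m4 := (Mr Q t⁻¹).mul_mem ((Mr Q t⁻¹).sub_mem m1 (Mr Q t⁻¹).one_mem) m3
    have e : ((D : L) - 1) * (((t * d⁻¹ : Lˣ)⁻¹ : Lˣ) : L) = (v : L) := by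
      have e1 : (D : L) - 1 = (v : L) * ((t * d⁻¹ : Lˣ) : L) := by
        rw [hm, Units.val_mul, ht, ← hd']
        ring
      rw [e1, mul_assoc, Units.mul_inv, mul_one]
    rwa [e] at m4
  -- conclusion from `u ∈ U`
  suffices hfin : t⁻¹ ∈ Q.U by
    refine ⟨t, ?_, ht⟩
    have := Q.U.inv_mem hfin
    rwa [inv_inv] at this
  have h4u : (2 : L) * (2 * (u' * u')) = 1 := by
    linear_combination (2 * u' + 1) * htt
  rcases hUI.ev_or_od (Q.U.pow_mem hDU 2) with hev | hod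
  · -- `D²` even
    obtain ⟨n, hn⟩ := hev
    have s1 : Q.S (t⁻¹ * t⁻¹) (-1) := by
      rw [← hn]
      exact Q.S_pow hS2 n
    have s2 : Q.S t (-1) := by
      refine (h2 L A Q (t⁻¹ * t⁻¹) (-1) t Q.neg ?_).1 s1
      rw [Units.val_mul, ht, ← hu', Units.val_neg, Units.val_one]
      linear_combination h4u
    refine h3 L A Q t⁻¹ D (-1) hS1 (by rwa [inv_inv]) hu1 ?_ hM
    rw [Units.val_neg, Units.val_one, sub_neg_eq_add, one_add_one_eq_two, ← ht]
    exact t.isUnit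
  · rcases hUI.ev_or_od hDU with hDe | hDo
    · -- `D²` odd, `D` even
      obtain ⟨n, hnodd, hn⟩ := hod
      have hne : (-1 : Lˣ) ≠ 1 := by
        intro h
        have h5 : ((-1 : Lˣ) : L) = ((1 : Lˣ) : L) := by rw [h]
        rw [Units.val_neg, Units.val_one] at h5
        have h6 : (t : L) = 0 := by
          rw [ht]
          linear_combination -h5
        exact t.ne_zero h6
      have hsq : (D ^ n) ^ 2 = 1 := by rw [← pow_mul, mul_comm, pow_mul, hn]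
      have hDn : D ^ n = -1 := by
        rcases hUI _ (Q.U.pow_mem hDU n) hsq with h | h
        · exact absurd ⟨n, hnodd, h⟩ (Ev.not_od hne hDe)
        · exact h
      have hσo : Od (-D) := ⟨n, hnodd, by rw [hnodd.neg_pow, hDn, neg_neg]⟩
      obtain ⟨k, hk⟩ := hσo.eq_pow 1
      have hsq2 : (-D) ^ (2 ^ 1) = D ^ 2 := by rw [pow_one, neg_sq]
      rw [hsq2] at hk
      have s1 : Q.S (t⁻¹ * t⁻¹) (-D) := by
        rw [← hk]
        exact Q.S_pow hS2 k
      have s2 : Q.S (d * t) (-D) := by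
        refine (h2 L A Q (t⁻¹ * t⁻¹) (-D) (d * t) (neg_mem Q hDU) ?_).1 s1
        rw [Units.val_mul, Units.val_mul, ht, hd, ← hu', Units.val_neg]
        have e : 1 - -(D : L) = 2 * d' := by rw [← hp]; ring
        rw [e]
        linear_combination (1 - (v : L)) * d' * h4u + hdd
      have s3 := (Q.S_smul_iff hdU).1 s2
      refine h3 L A Q t⁻¹ D (-D) hS1 (by rwa [inv_inv]) hu1 ?_ hM
      rw [Units.val_neg, sub_neg_eq_add]
      exact hu2
    · -- `D` odd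
      obtain ⟨k, hk⟩ := hDo.eq_pow 1
      rw [pow_one] at hk
      have s1 : Q.S (t⁻¹ * t⁻¹) D := by
        rw [← hk]
        exact Q.S_pow hS2 k
      have hτU : -(d * v⁻¹) ∈ Q.U := neg_mem Q (Q.U.mul_mem hdU (Q.U.inv_mem hvU))
      have s2 : Q.S (-(d * v⁻¹) * t) D := by
        refine (h2 L A Q (t⁻¹ * t⁻¹) D (-(d * v⁻¹) * t) hDU ?_).1 s1
        rw [Units.val_mul, Units.val_mul, Units.val_neg, Units.val_mul, ht, hd, ← hu', ← hv']
        have e : 1 - (D : L) = -(2 * (v : L) * d') := by rw [← hm]; ring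
        rw [e]
        linear_combination (1 - (v : L)) * d' * (v : L) * v' * h4u + (1 - (v : L)) * d' * hvv + hdd
      have s3 := (Q.S_smul_iff hτU).1 s2
      exact h3 L A Q t⁻¹ D D hS1 (by rwa [inv_inv]) hu1 hu1 hM

end Pool.Agent.Helper13.OD
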